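import Pool.Agent.CMG.Stmts

/-! Squad CMG, row KLE: a completely metrizable precompact group is compact.

Proof.  Let `F` be an ultrafilter on `H`.  Precompactness shows that `F` is a two-sided Cauchy filter.  Let `d` be a complete
metric of `H`.  For `k : ℕ` let `A k` be the set of the `y` such that there are `S ∈ F` and a neighbourhood `V` of `y` with
`d (x * y') (x' * y') < 1 / (k + 1)` for `x, x' ∈ S`, `y' ∈ V`.  `A k` is open and dense.  By the theorem of Baire there is a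
`y` in all the `A k`; the filter `F * y` is Cauchy for `d`, so it converges, and so does `F`. -/

set_option autoImplicit false

open Set Topology MeasureTheory
open scoped BigOperators Pointwise

namespace Pool.Agent.CMG.H46

open Pool.Agent.LSG Pool.Agent.CMG

/-- an ultrafilter of a precompact group is Cauchy on both sides -/
theorem two_sided {H : Type} [Group H] [TopologicalSpace H] [IsTopologicalGroup H]
    (hp : ∀ U ∈ nhds (1 : H), ∃ F : Finset H, (⋃ g ∈ F, g • U) = Set.univ)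
    (F : Ultrafilter H) (W : Set H) (hW : W ∈ nhds (1 : H)) :
    ∃ S ∈ F, (∀ x ∈ S, ∀ x' ∈ S, x⁻¹ * x' ∈ W) ∧ ∀ x ∈ S, ∀ x' ∈ S, x * x'⁻¹ ∈ W := by
  -- U symmetric with U * U ⊆ W
  obtain ⟨U, hU, hU1, hUinv, hUW⟩ : ∃ U : Set H, U ∈ nhds (1 : H) ∧ True ∧ (∀ u ∈ U, u⁻¹ ∈ U) ∧
      ∀ u ∈ U, ∀ v ∈ U, u * v ∈ W := by
    have h1 : Filter.Tendsto (fun p : H × H => p.1 * p.2) (nhds (1 : H) ×ˢ nhds (1 : H))
        (nhds (1 : H)) := by
      have := (continuous_mul (M := H)).tendsto ((1 : H), (1 : H))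
      rw [nhds_prod_eq] at this
      simpa using this
    have h2 := h1 hW
    rw [Filter.mem_map, Filter.mem_prod_iff] at h2
    obtain ⟨A, hA, B, hB, hAB⟩ := h2
    have hC : A ∩ B ∈ nhds (1 : H) := Filter.inter_mem hA hB
    have hCi : (A ∩ B)⁻¹ ∈ nhds (1 : H) := by
      have := inv_mem_nhds_one H hC
      exact this
    refine ⟨(A ∩ B) ∩ (A ∩ B)⁻¹, Filter.inter_mem hC hCi, trivial, ?_, ?_⟩
    · rintro u ⟨hu1, hu2⟩
      refine ⟨hu2, ?_⟩
      simpa using hu1
    · intro u hu v hv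
      exact hAB (Set.mk_mem_prod hu.1.1 hv.1.2)
  -- left
  obtain ⟨T, hT⟩ := hp U hU
  have hL : ∃ g : H, g • U ∈ F := by
    have h3 : (⋃ g ∈ T, g • U) ∈ F := by
      rw [hT]
      exact Filter.univ_mem
    have h4 := (Ultrafilter.finite_biUnion_mem_iff (T.finite_toSet)).mp
      (by simpa using h3 : (⋃ g ∈ (↑T : Set H), g • U) ∈ F)
    obtain ⟨g, _, hg⟩ := h4
    exact ⟨g, hg⟩
  obtain ⟨g, hg⟩ := hL
  have hR : ∃ g' : H, {x : H | x⁻¹ ∈ g' • U} ∈ F := by
    have h3 : (⋃ g ∈ (↑T : Set H), {x : H | x⁻¹ ∈ g • U}) ∈ F := by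
      have : (⋃ g ∈ (↑T : Set H), {x : H | x⁻¹ ∈ g • U}) = Set.univ := by
        ext x
        simp only [Set.mem_iUnion, Set.mem_ofPred_eq, Set.mem_univ, iff_true]
        have hx : x⁻¹ ∈ (⋃ g ∈ T, g • U) := by
          rw [hT]
          trivial
        simp only [Set.mem_iUnion] at hx
        obtain ⟨g, hgT, hgx⟩ := hx
        exact ⟨g, hgT, hgx⟩
      rw [this]
      exact Filter.univ_mem
    obtain ⟨g', _, hg'⟩ := (Ultrafilter.finite_biUnion_mem_iff (T.finite_toSet)).mp h3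
    exact ⟨g', hg'⟩
  obtain ⟨g', hg'⟩ := hR
  refine ⟨g • U ∩ {x : H | x⁻¹ ∈ g' • U}, Filter.inter_mem hg hg', ?_, ?_⟩
  · rintro x ⟨hx, _⟩ x' ⟨hx', _⟩
    obtain ⟨u, hu, rfl⟩ := hx
    obtain ⟨u', hu', rfl⟩ := hx'
    have : (g • u)⁻¹ * (g • u') = u⁻¹ * u' := by
      simp [smul_eq_mul, mul_assoc]
    simp only [this]
    exact hUW _ (hUinv u hu) _ hu'
  · rintro x ⟨_, hx⟩ x' ⟨_, hx'⟩
    obtain ⟨u, hu, hu2⟩ := hx
    obtain ⟨u', hu', hu2'⟩ := hx'
    have e1 : x = (g' * u)⁻¹ := by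
      have : x⁻¹ = g' * u := hu2.symm
      rw [← this, inv_inv]
    have e2 : x'⁻¹ = g' * u' := hu2'.symm
    have : x * x'⁻¹ = u⁻¹ * u' := by
      rw [e1, e2]
      simp [mul_assoc]
    rw [this]
    exact hUW _ (hUinv u hu) _ hu'

theorem kle : KleStmt := by
  intro H _ _ _ _ hp
  letI := TopologicalSpace.upgradeIsCompletelyMetrizable H
  rw [← isCompact_univ_iff, isCompact_iff_ultrafilter_le_nhds]
  intro F _
  -- the sets A k
  let A : ℕ → Set H := fun k => interior {y : H | ∃ S ∈ F, ∀ x ∈ S, ∀ x' ∈ S,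
    dist (x * y) (x' * y) < 1 / ((k : ℝ) + 1)}
  have hAo : ∀ k, IsOpen (A k) := fun k => isOpen_interior
  have hAd : ∀ k, Dense (A k) := by
    intro k
    rw [dense_iff_inter_open]
    rintro W hWo ⟨y0, hy0⟩
    -- S0
    have hk : (0 : ℝ) < 1 / ((k : ℝ) + 1) / 2 := by positivity
    have h1 : Filter.Tendsto (fun g : H => g * y0) (nhds 1) (nhds y0) := by
      have := (continuous_mul_const y0).tendsto (1 : H)
      simpa using this
    have h2 : (fun g : H => g * y0) ⁻¹' W ∈ nhds (1 : H) := h1 (hWo.mem_nhds hy0)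
    obtain ⟨S0, hS0, hS0a, _⟩ := two_sided hp F _ h2
    obtain ⟨s0, hs0⟩ := F.nonempty_of_mem hS0
    have h3 : Filter.Tendsto (fun p : H × H => p.1 * p.2) (nhds (1 : H) ×ˢ nhds (s0 * y0))
        (nhds (s0 * y0)) := by
      have := (continuous_mul (M := H)).tendsto ((1 : H), (s0 * y0))
      rw [nhds_prod_eq] at this
      simpa using this
    have h4 := h3 (Metric.ball_mem_nhds (s0 * y0) hk)
    rw [Filter.mem_map, Filter.mem_prod_iff] at h4
    obtain ⟨U, hU, Z, hZ, hUZ⟩ := h4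
    obtain ⟨S1, hS1, _, hS1b⟩ := two_sided hp F _ hU
    have hS : S0 ∩ S1 ∈ F := Filter.inter_mem hS0 hS1
    obtain ⟨s, hs⟩ := F.nonempty_of_mem hS
    refine ⟨s⁻¹ * (s0 * y0), ?_, ?_⟩
    · have := hS0a s hs.1 s0 hs0
      simpa [mul_assoc] using this
    · rw [mem_interior_iff_mem_nhds]
      have h5 : Filter.Tendsto (fun y : H => s * y) (nhds (s⁻¹ * (s0 * y0))) (nhds (s0 * y0)) := by
        have := (continuous_const_mul s).tendsto (s⁻¹ * (s0 * y0))
        simpa using this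
      have h6 := h5 hZ
      filter_upwards [h6] with y hy
      refine ⟨S1, hS1, ?_⟩
      intro x hx x' hx'
      have h7 : ∀ x ∈ S1, dist (x * y) (s0 * y0) < 1 / ((k : ℝ) + 1) / 2 := by
        intro x hx
        have h8 : (x * s⁻¹, s * y) ∈ U ×ˢ Z := Set.mk_mem_prod (hS1b x hx s hs.2) hy
        have h9 := hUZ h8
        simp only [Set.mem_preimage, Metric.mem_ball] at h9
        have e : x * s⁻¹ * (s * y) = x * y := by simp [mul_assoc]
        rw [e] at h9
        exact h9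
      have h10 := h7 x hx
      have h11 := h7 x' hx'
      have h12 := dist_triangle_right (x * y) (x' * y) (s0 * y0)
      linarith
  obtain ⟨y, hy⟩ : (⋂ k, A k).Nonempty := by
    haveI : Nonempty H := ⟨1⟩
    exact (dense_iInter_of_isOpen hAo hAd).nonempty
  have hC : Cauchy (Filter.map (fun x : H => x * y) (F : Filter H)) := by
    rw [Metric.cauchy_iff]
    refine ⟨inferInstance, ?_⟩
    intro ε hε
    obtain ⟨k, hk⟩ := exists_nat_one_div_lt hε
    have hyk : y ∈ A k := Set.mem_iInter.mp hy k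
    have hyk2 := interior_subset hyk
    obtain ⟨S, hS, hSd⟩ := hyk2
    refine ⟨(fun x : H => x * y) '' S, Filter.image_mem_map hS, ?_⟩
    rintro _ ⟨a, ha, rfl⟩ _ ⟨b, hb, rfl⟩
    exact lt_trans (hSd a ha b hb) hk
  obtain ⟨z, hz⟩ := CompleteSpace.complete hC
  refine ⟨z * y⁻¹, Set.mem_univ _, ?_⟩
  have h13 : Filter.Tendsto (fun x : H => x * y) (F : Filter H) (nhds z) := hz
  have h14 : Filter.Tendsto (fun x : H => (x * y) * y⁻¹) (F : Filter H) (nhds (z * y⁻¹)) :=
    h13.mul_const y⁻¹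
  have h15 : (fun x : H => (x * y) * y⁻¹) = fun x => x := by
    funext x
    simp [mul_assoc]
  rw [h15] at h14
  exact h14

end Pool.Agent.CMG.H46
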